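import Pool.Agent.R666.FR.All

/-!
# Feasible regions for consecutive patterns, classes avoiding several patterns of size three

`FeasR.Region B k` is the feasible region of the class `Av(B)`, `B` a set of patterns of size three,
for consecutive patterns of size `k`; `FeasR.Answer B j` is its explicit description for `k = j + 1`
(both in `Pool/Agent/R666/FR/Defs.lean`).
-/

set_option autoImplicit false

namespace Pool.Agent.Results.MP_9c7f60_co.Regions

/-- **The feasible regions of all classes avoiding at least two patterns of size three.** -/
theorem result (B : Finset FeasR.P3) (hB : 2 ≤ B.card) (j : ℕ) :
    FeasR.Region B (j + 1) = FeasR.Answer B j :=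
  FeasR.answer B hB j

end Pool.Agent.Results.MP_9c7f60_co.Regions
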